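import Pool.Agent.W425.IM.Stm
import Pool.Agent.W749.MT.Com
import Pool.Agent.W417.MT.Tay
import Pool.Agent.W417.MT.Free

/-!
# Project IM, part STI: the class of a stratum (helper500)
-/

set_option autoImplicit false

namespace Pool.Agent.W500.IM.StI

open Pool.Agent.W428.MOT Pool.Agent.W749.MT Pool.Agent.W425.IM
open Pool.Agent.W426.SM (AffInd gord ford)

/-! ### several coordinates at once -/

section TayS

variable {F : Type} [Field F] {n r : ℕ}

/-- (TAY) part 3 for several coordinates -/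
theorem tay_sum (h3 : S_Tay) (m : Fin r → Fin n → ℕ) (c : Fin r → F) (δ : Fin r → ℕ)
    (y : Fin n → PowerSeries F) (q : ℕ) (hq : 1 ≤ q) (w : Fin n → F) (s : Finset (Fin n)) :
    PowerSeries.coeff q (gser m c δ (fun l => if l ∈ s then
        y l + PowerSeries.C (w l) * PowerSeries.X ^ q else y l)) =
      PowerSeries.coeff q (gser m c δ y) +
        ∑ l ∈ s, w l * dgbar m c (Finset.univ.filter fun j => δ j = 0) l
          (fun i => PowerSeries.constantCoeff (y i)) := by
  classical
  induction s using Finset.induction_on with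
  | empty => simp
  | insert a s ha ih =>
    set y' : Fin n → PowerSeries F := fun l => if l ∈ s then
        y l + PowerSeries.C (w l) * PowerSeries.X ^ q else y l with hy'
    have h1 : (fun l => if l ∈ insert a s then
        y l + PowerSeries.C (w l) * PowerSeries.X ^ q else y l)
        = Function.update y' a (y' a + PowerSeries.C (w a) * PowerSeries.X ^ q) := by
      funext l
      by_cases hl : l = a
      · subst hl
        rw [Function.update_self, if_pos (Finset.mem_insert_self _ _)]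
        simp only [hy', if_neg ha]
      · rw [Function.update_of_ne hl]
        simp only [hy', Finset.mem_insert, hl, false_or]
    have h2 : ∀ i, PowerSeries.constantCoeff (y' i) = PowerSeries.constantCoeff (y i) := by
      intro i
      simp only [hy']
      split_ifs
      · rw [map_add, map_mul, map_pow, PowerSeries.constantCoeff_X, zero_pow (by omega), mul_zero,
          add_zero]
      · rfl
    rw [h1, (h3 m c δ y').2.2 q a (w a) hq, ih, Finset.sum_insert ha]
    simp only [h2]
    ring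

/-- `gbar` does not depend on the coordinates not occurring in the relevant monomials -/
theorem gbar_congr2 (m : Fin r → Fin n → ℕ) (c : Fin r → F) (τ : Finset (Fin r))
    (z w : Fin n → F) (h : ∀ j ∈ τ, c j ≠ 0 → ∀ i, m j i ≠ 0 → z i = w i) :
    gbar m c τ z = gbar m c τ w := by
  unfold gbar
  refine Finset.sum_congr rfl fun j hj => ?_
  by_cases hc : c j = 0
  · rw [hc, zero_mul, zero_mul]
  congr 1
  refine Finset.prod_congr rfl fun i _ => ?_
  by_cases hm : m j i = 0
  · rw [hm, pow_zero, pow_zero]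
  · rw [h j hj hc i hm]

/-- `gbar` only depends on the relevant monomials -/
theorem gbar_msk {k : ℕ} (π : Fin r → Fin k) (m : Fin r → Fin n → ℕ) (c : Fin r → F) (i : Fin k)
    (τ τ' : Finset (Fin r)) (z : Fin n → F) (h : ∀ j, π j = i → (j ∈ τ ↔ j ∈ τ')) :
    gbar m (msk π c i) τ z = gbar m (msk π c i) τ' z := by
  classical
  unfold gbar
  rw [← Finset.sum_filter_add_sum_filter_not τ (fun j => π j = i),
    ← Finset.sum_filter_add_sum_filter_not τ' (fun j => π j = i)]
  have e1 : τ.filter (fun j => π j = i) = τ'.filter (fun j => π j = i) := by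
    ext j
    simp only [Finset.mem_filter]
    constructor
    · rintro ⟨h1, h2⟩
      exact ⟨(h j h2).1 h1, h2⟩
    · rintro ⟨h1, h2⟩
      exact ⟨(h j h2).2 h1, h2⟩
  have e2 : ∀ σ : Finset (Fin r), ∑ j ∈ σ.filter (fun j => ¬ π j = i),
      msk π c i j * ∏ l, z l ^ m j l = 0 := by
    intro σ
    refine Finset.sum_eq_zero fun j hj => ?_
    rw [msk, if_neg (Finset.mem_filter.1 hj).2, zero_mul]
  rw [e1, e2, e2]

end TayS

section Defs

variable {K : Type} [Field K] {n k r : ℕ}

theorem msk_cb (π : Fin r → Fin k) (c : Fin r → K) (i : Fin k) :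
    msk π (cb c) i = cb (msk π c i) := by
  funext j
  unfold msk cb
  by_cases h : π j = i
  · simp only [if_pos h]
  · simp only [if_neg h, map_zero]

/-- the exponents of `t` in `gI` -/
noncomputable def dl (π : Fin r → Fin k) (w : Fin r → Fin n → ℕ) (u : Fin n → ℕ) (i : Fin k)
    (j : Fin r) : ℕ := ∑ l, u l * w j l - mI π w u i

theorem gI_eq (π : Fin r → Fin k) (w : Fin r → Fin n → ℕ) (c : Fin r → K) (u : Fin n → ℕ)
    (i : Fin k) (y : Fin n → PowerSeries (AlgebraicClosure K)) :
    gI π w c u i y = gser w (msk π (cb c) i) (dl π w u i) y := rfl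

theorem mI_le (π : Fin r → Fin k) (w : Fin r → Fin n → ℕ) (u : Fin n → ℕ) (j : Fin r) :
    mI π w u (π j) ≤ ∑ l, u l * w j l :=
  ciInf_le (OrderBot.bddBelow _) (⟨j, rfl⟩ : {j' // π j' = π j})

theorem exists_mI (π : Fin r → Fin k) (hπ : Function.Surjective π) (w : Fin r → Fin n → ℕ)
    (u : Fin n → ℕ) (i : Fin k) : ∃ j, π j = i ∧ ∑ l, u l * w j l = mI π w u i := by
  obtain ⟨j0, hj0⟩ := hπ i
  have : Nonempty {j // π j = i} := ⟨⟨j0, hj0⟩⟩
  have := Nat.sInf_mem (Set.range_nonempty fun j : {j // π j = i} => ∑ l, u l * w j l)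
  obtain ⟨j, hj⟩ := this
  exact ⟨j, j.2, hj⟩

theorem dl_eq_zero (π : Fin r → Fin k) (w : Fin r → Fin n → ℕ) (u : Fin n → ℕ) (i : Fin k)
    (j : Fin r) (hj : π j = i) : dl π w u i j = 0 ↔ ∑ l, u l * w j l = mI π w u i := by
  subst hj
  have := mI_le π w u j
  unfold dl
  omega

/-- the conditions up to the level `Q` -/
def WQ (π : Fin r → Fin k) (w : Fin r → Fin n → ℕ) (c : Fin r → K) (u : Fin n → ℕ) (N : ℕ)
    (lam : Fin k → ℕ) (Q : ℕ) : Set (Pt K (Fin n × Fin (2 * N + 1 + 1))) :=
  {y | ∀ i, ∀ j < min (lam i) Q, PowerSeries.coeff j (gI π w c u i (arc y)) = 0}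

theorem IsPA_gI {N : ℕ} (π : Fin r → Fin k) (w : Fin r → Fin n → ℕ) (c : Fin r → K)
    (u : Fin n → ℕ) (i : Fin k) :
    IsPA (fun y : Pt K (Fin n × Fin (N + 1)) => gI π w c u i (arc y)) := by
  simp only [gI_eq, msk_cb]
  exact IsPA_gser w (msk π c i) (dl π w u i)

theorem constr_WQ (π : Fin r → Fin k) (w : Fin r → Fin n → ℕ) (c : Fin r → K) (u : Fin n → ℕ)
    (N : ℕ) (lam : Fin k → ℕ) (Q : ℕ) : Constr (WQ π w c u N lam Q) := by
  refine Constr.all fun i => ?_
  exact Constr.allLt _ fun j _ => Constr.eqz (IsPA_gI π w c u i j)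

end Defs

section Arc

variable {K : Type} [Field K] {n : ℕ}

/-- changing the coordinates of level `Q` -/
theorem arc_level {N : ℕ} (Q : ℕ) (hQ : Q < N + 1) (z z' : Pt K (Fin n × Fin (N + 1)))
    (h : ∀ p : Fin n × Fin (N + 1), (p.2 : ℕ) ≠ Q → z' p = z p) (l : Fin n) :
    arc z' l = arc z l + PowerSeries.C (z' (l, ⟨Q, hQ⟩) - z (l, ⟨Q, hQ⟩)) * PowerSeries.X ^ Q := by
  ext j
  rw [map_add, PowerSeries.coeff_C_mul, PowerSeries.coeff_X_pow]
  by_cases hj : j < N + 1
  · rw [coeff_arc _ _ _ hj, coeff_arc _ _ _ hj]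
    by_cases hjQ : j = Q
    · subst hjQ
      rw [if_pos rfl]
      ring
    · rw [if_neg hjQ, mul_zero, add_zero]
      exact h _ hjQ
  · have h1 : ∀ y : Pt K (Fin n × Fin (N + 1)), PowerSeries.coeff j (arc y l) = 0 := by
      intro y
      rw [arc, PowerSeries.coeff_mk, dif_neg hj]
    rw [h1, h1, if_neg (by omega), mul_zero, add_zero]

end Arc

section Step

variable {K : Type} [Field K] [CharZero K] {n k r : ℕ} {R : Type} [CommRing R]

theorem step (hL : S_Lin) (hN : S_NonI) (h3 : S_Tay) (M : Meas K R) (π : Fin r → Fin k)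
    (w : Fin r → Fin n → ℕ) (c : Fin r → K) (hA : AffInd (vv π w)) (hc : ∀ j, c j ≠ 0)
    (hπ : Function.Surjective π) (N : ℕ) (u : Fin n → ℕ) (hu : ∀ l, u l ≤ N + 1)
    (lam : Fin k → ℕ) (Fr : Finset (Fin n)) (τ : Finset (Fin r)) (hFr : ∀ l, l ∉ Fr → u l ≤ N)
    (hτ : ∀ i, 0 < lam i → ∀ j, π j = i →
      (j ∈ τ ↔ ∑ l, u l * w j l = mI π w u i) ∧ (j ∈ τ → ∀ l ∈ Fr, w j l = 0))
    (Q : ℕ) (hQ1 : 1 ≤ Q) (hQN : Q ≤ N) :
    M.χ _ (Y0 (0 : Fin n → K) N u ∩ WQ π w c u N lam (Q + 1)) *
        M.L ^ (Finset.univ.filter fun i => Q < lam i).card =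
      M.χ _ (Y0 (0 : Fin n → K) N u ∩ WQ π w c u N lam Q) := by
  classical
  set T : Finset (Fin k) := Finset.univ.filter fun i => Q < lam i with hT
  have hTm : ∀ i, i ∈ T ↔ Q < lam i := fun i => by simp [hT]
  set e : Fin T.card ≃ {x // x ∈ T} := T.equivFin.symm with he
  set σ : Fin T.card → Fin k := fun a => (e a : Fin k) with hσ
  have hσT : ∀ a, σ a ∈ T := fun a => (e a).2
  have hQ2 : Q < 2 * N + 1 + 1 := by omega
  set D : Finset (Fin n × Fin (2 * N + 1 + 1)) :=
    Finset.univ.image (fun l : Fin n => (l, (⟨Q, hQ2⟩ : Fin (2 * N + 1 + 1)))) with hD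
  have hDm : ∀ p : Fin n × Fin (2 * N + 1 + 1), p ∈ D ↔ (p.2 : ℕ) = Q := by
    intro p
    simp only [hD, Finset.mem_image, Finset.mem_univ, true_and]
    constructor
    · rintro ⟨l, rfl⟩
      rfl
    · intro hp
      exact ⟨p.1, Prod.ext rfl (Fin.ext hp.symm)⟩
  have hDinj : Function.Injective (fun l : Fin n => (l, (⟨Q, hQ2⟩ : Fin (2 * N + 1 + 1)))) :=
    fun i j h => (Prod.mk.inj h).1
  have hset : Y0 (0 : Fin n → K) N u ∩ WQ π w c u N lam (Q + 1) =
      (Y0 (0 : Fin n → K) N u ∩ WQ π w c u N lam Q) ∩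
        {z | ∀ a, PowerSeries.coeff Q (gI π w c u (σ a) (arc z)) = 0} := by
    ext z
    constructor
    · rintro ⟨h1, h2⟩
      refine ⟨⟨h1, fun i j hj => h2 i j (by omega)⟩, fun a => ?_⟩
      have := (hTm _).1 (hσT a)
      exact h2 _ Q (by omega)
    · rintro ⟨⟨h1, h2⟩, h4⟩
      refine ⟨h1, fun i j hj => ?_⟩
      by_cases hjQ : j < Q
      · exact h2 i j (by omega)
      · have h5 : j = Q := by omega
        subst h5
        have h6 : i ∈ T := (hTm i).2 (by omega)
        have h7 := h4 (e.symm ⟨i, h6⟩)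
        simp only [hσ, Equiv.apply_symm_apply] at h7
        exact h7
  rw [hset]
  refine hL M _ D T.card (fun a z => PowerSeries.coeff Q (gI π w c u (σ a) (arc z)))
    (fun a d z => dgbar w (msk π (cb c) (σ a)) (Finset.univ.filter fun j => dl π w u (σ a) j = 0)
      d.1 (fun l => z (l, 0)))
    ((constr_Y0 _ N u).inter (constr_WQ π w c u N lam Q))
    (fun a => IsPA_gI π w c u (σ a) Q) ?_ ?_ ?_
  · intro a d
    rw [msk_cb]
    exact IsPF_dgbar w (msk π c (σ a)) _ d.1 (fun l => (l, 0))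
  · intro z z' hzz
    have hlev : ∀ p : Fin n × Fin (2 * N + 1 + 1), (p.2 : ℕ) ≠ Q → z' p = z p := fun p hp =>
      hzz p fun hc => hp ((hDm p).1 hc)
    have hz0 : ∀ l, z' (l, 0) = z (l, 0) := fun l => hlev (l, 0) (by
      show (0 : ℕ) ≠ Q
      omega)
    have harc := arc_level Q hQ2 z z' hlev
    have hlow : ∀ i, ∀ j < Q, PowerSeries.coeff j (arc z' i) = PowerSeries.coeff j (arc z i) := by
      intro i j hj
      rw [harc i, map_add, PowerSeries.coeff_C_mul, PowerSeries.coeff_X_pow, if_neg (by omega),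
        mul_zero, add_zero]
    refine ⟨?_, ?_, ?_⟩
    · rintro ⟨⟨h4, h5, h6⟩, h7⟩
      refine ⟨⟨?_, ?_, ?_⟩, ?_⟩
      · intro i j hj
        rw [hlev (i, j) (by
          show (j : ℕ) ≠ Q
          have := hu i
          omega)]
        exact h4 i j hj
      · intro i hi
        rw [hz0]
        exact h5 i hi
      · intro i hi
        rw [hz0]
        exact h6 i hi
      · intro i j hj
        rw [gI_eq, (h3 w (msk π (cb c) i) (dl π w u i) (arc z)).2.1 (Q - 1) (arc z')
          (fun l q hq => hlow l q (by omega)) j (by omega), ← gI_eq]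
        exact h7 i j hj
    · intro a d
      simp only [hz0]
    · intro a
      have h8 := tay_sum h3 w (msk π (cb c) (σ a)) (dl π w u (σ a)) (arc z) Q hQ1
        (fun l => z' (l, ⟨Q, hQ2⟩) - z (l, ⟨Q, hQ2⟩)) Finset.univ
      have h9 : (fun l => if l ∈ (Finset.univ : Finset (Fin n)) then arc z l +
          PowerSeries.C (z' (l, ⟨Q, hQ2⟩) - z (l, ⟨Q, hQ2⟩)) * PowerSeries.X ^ Q else arc z l)
          = arc z' := by
        funext l
        rw [if_pos (Finset.mem_univ _), harc l]
      rw [h9] at h8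
      simp only [gI_eq]
      rw [h8, hD, Finset.sum_image (fun i _ j _ h => hDinj h)]
      congr 1
      refine Finset.sum_congr rfl fun l _ => ?_
      simp only [constantCoeff_arc]
      ring
  · rintro z ⟨⟨hz1, hz2, hz3⟩, hz4⟩ x hx
    set τ' : Fin k → Finset (Fin r) := fun i => Finset.univ.filter fun j => dl π w u i j = 0
      with hτ'
    have hτm : ∀ i j, π j = i → (j ∈ τ' i ↔ ∑ l, u l * w j l = mI π w u i) := by
      intro i j hij
      simp only [hτ', Finset.mem_filter, Finset.mem_univ, true_and]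
      exact dl_eq_zero π w u i j hij
    set X : Fin k → AlgebraicClosure K := fun i => if h : i ∈ T then x (e.symm ⟨i, h⟩) else 0
      with hX
    have key := hN π w (cb c) T τ' (fun l => z (l, 0)) hA
      (fun j => (map_ne_zero _).2 (hc j)) ?_ ?_ ?_ X ?_
    · funext a
      have h5 := key (σ a) (hσT a)
      simp only [hX, dif_pos (hσT a)] at h5
      have h6 : e.symm ⟨σ a, hσT a⟩ = a := by
        have : (⟨σ a, hσT a⟩ : {x // x ∈ T}) = e a := rfl
        rw [this, Equiv.symm_apply_apply]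
      rw [h6] at h5
      exact h5
    · intro i _
      obtain ⟨j, hj1, hj2⟩ := exists_mI π hπ w u i
      exact ⟨j, (hτm i j hj1).2 hj2, hj1⟩
    · intro i hi j hj hij l hl
      have h5 : 0 < lam i := lt_of_le_of_lt (Nat.zero_le _) ((hTm i).1 hi)
      obtain ⟨h6, h7⟩ := hτ i h5 j hij
      have h8 : j ∈ τ := h6.2 ((hτm i j hij).1 hj)
      have h9 : l ∉ Fr := fun hc => hl (h7 h8 l hc)
      exact hz2 l (hFr l h9)
    · intro i hi
      have h5 : Q < lam i := (hTm i).1 hi
      have h6 := hz4 i 0 (by omega)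
      rw [gI_eq, (h3 w (msk π (cb c) i) (dl π w u i) (arc z)).1] at h6
      simp only [constantCoeff_arc] at h6
      exact h6
    · intro l
      have h5 := hx (l, ⟨Q, hQ2⟩) ((hDm _).2 rfl)
      rw [← h5, ← Finset.sum_coe_sort T, ← Equiv.sum_comp e]
      refine Finset.sum_congr rfl fun a _ => ?_
      have h6 : X (e a) = x a := by
        simp only [hX, dif_pos (e a).2]
        rw [Subtype.coe_eta, Equiv.symm_apply_apply]
      rw [h6]

end Step

theorem sum_lam {k : ℕ} (N : ℕ) (lam : Fin k → ℕ) (h : ∀ i, lam i ≤ N + 1) :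
    ∑ Q ∈ Finset.Icc 1 N, (Finset.univ.filter fun i => Q < lam i).card = ∑ i, (lam i - 1) := by
  simp only [Finset.card_filter]
  rw [Finset.sum_comm]
  refine Finset.sum_congr rfl fun i _ => ?_
  rw [← Finset.card_filter]
  have : (Finset.Icc 1 N).filter (fun Q => Q < lam i) = Finset.Ico 1 (lam i) := by
    ext Q
    simp only [Finset.mem_filter, Finset.mem_Icc, Finset.mem_Ico]
    have := h i
    omega
  rw [this, Nat.card_Ico]

theorem main (hL : S_Lin) (hN : S_NonI) : S_StI := by
  intro K _ _ R _ M n k r π w c hA hc hπ N hN1 u hu0 hu lam hlam Fr τ hFr hτ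
  classical
  have h1 : S_Free := Pool.Agent.W417.MT.Free.main
  have h3 : S_Tay := Pool.Agent.W417.MT.Tay.main
  have steps : ∀ t ≤ N, M.χ _ (Y0 (0 : Fin n → K) N u ∩ WQ π w c u N lam (t + 1)) *
      M.L ^ (∑ Q ∈ Finset.Icc 1 t, (Finset.univ.filter fun i => Q < lam i).card) =
      M.χ _ (Y0 (0 : Fin n → K) N u ∩ WQ π w c u N lam 1) := by
    intro t
    induction t with
    | zero =>
      intro _
      simp
    | succ t ih =>
      intro ht
      rw [← ih (by omega), ← step hL hN h3 M π w c hA hc hπ N u hu lam Fr τ hFr hτ (t + 1)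
        (by omega) ht, Finset.sum_Icc_succ_top (by omega), pow_add]
      ring
  have hW : {y : Pt K (Fin n × Fin (2 * N + 1 + 1)) | ∀ i, ∀ j < lam i,
      PowerSeries.coeff j (gI π w c u i (arc y)) = 0} = WQ π w c u N lam (N + 1) := by
    ext y
    have : ∀ i, min (lam i) (N + 1) = lam i := fun i => min_eq_left (hlam i)
    unfold WQ
    simp only [this]
  rw [hW, ← sum_lam N lam hlam, steps N le_rfl]
  -- level zero
  set T1 : Set (Pt K (Fin n × Fin (2 * N + 1 + 1))) :=
    {y | ∀ i, 0 < lam i → gbar w (msk π (cb c) i) τ (fun l => y (l, 0)) = 0} with hT1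
  have hW1 : WQ π w c u N lam 1 = T1 := by
    ext y
    have hg : ∀ i, 0 < lam i → PowerSeries.coeff 0 (gI π w c u i (arc y)) =
        gbar w (msk π (cb c) i) τ (fun l => y (l, 0)) := by
      intro i hi
      rw [gI_eq, (h3 w (msk π (cb c) i) (dl π w u i) (arc y)).1]
      simp only [constantCoeff_arc]
      refine gbar_msk π w (cb c) i _ _ _ fun j hj => ?_
      rw [(hτ i hi j hj).1]
      simp only [Finset.mem_filter, Finset.mem_univ, true_and]
      exact dl_eq_zero π w u i j hj
    constructor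
    · intro hy i hi
      rw [← hg i hi]
      exact hy i 0 (by omega)
    · intro hy i j hj
      have hj0 : j = 0 := by omega
      have hi : 0 < lam i := by omega
      subst hj0
      rw [hg i hi]
      exact hy i hi
  rw [hW1]
  have hT1c : Constr T1 := by
    refine Constr.all fun i => Constr.imp' fun _ => ?_
    have := IsPF_gbar w (msk π c i) τ (fun l : Fin n => (l, (0 : Fin (2 * N + 1 + 1))))
    rw [← msk_cb] at this
    exact Constr.eqz this
  have hgdep : ∀ i, 0 < lam i → ∀ z z' : Fin n → AlgebraicClosure K, (∀ l, l ∉ Fr → z' l = z l) →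
      gbar w (msk π (cb c) i) τ z' = gbar w (msk π (cb c) i) τ z := by
    intro i hi z z' hz
    refine gbar_congr2 w _ τ _ _ fun j hj hcj l hl => ?_
    have hij : π j = i := by
      by_contra hne
      exact hcj (if_neg hne)
    exact hz l fun hcl => hl ((hτ i hi j hij).2 hj l hcl)
  have hdep : ∀ y y' : Pt K (Fin n × Fin (2 * N + 1 + 1)), (∀ i, i ∉ Fr → y' (i, 0) = y (i, 0)) →
      (∀ p ∈ (∅ : Finset (Fin n × Fin (2 * N + 1 + 1))), y' p = y p) → y ∈ T1 → y' ∈ T1 := by
    intro y y' h _ hy i hi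
    rw [hgdep i hi (fun l => y (l, 0)) (fun l => y' (l, 0)) h]
    exact hy i hi
  have key := freeN h1 M (0 : Fin n → K) N u Fr (fun _ _ => rfl) hFr ∅ (Finset.empty_subset _) T1
    hT1c hdep
  rw [Finset.card_empty, pow_zero, mul_one] at key
  rw [key]
  congr 3
  have hB : Constr (BI π w c Fr (Finset.univ.filter fun i => 0 < lam i) τ) := by
    refine Constr.and ?_ (Constr.and ?_ ?_)
    · exact Constr.all fun i => Constr.ne (IsPF.coord _) IsPF.zero
    · exact Constr.ballFinset _ fun i _ => Constr.eq (IsPF.coord _) IsPF.one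
    · refine Constr.ballFinset _ fun i _ => ?_
      have := IsPF_gbar w (msk π c i) τ (id : Fin n → Fin n)
      rw [← msk_cb] at this
      exact Constr.eqz this
  have h0 : ((0 : Fin (2 * N + 1 + 1)) : ℕ) = 0 := rfl
  refine M.iso _ _ (constr_Nrm (0 : Fin n → K) N Fr ∅ T1 hT1c) hB (fun y i => y (i, 0))
    (fun z p => if (p.2 : ℕ) = 0 then z p.1 else 0) ?_ ?_ ?_ ?_ ?_ ?_
  · exact regularOn_poly (fun i => IsPF.coord _) _
  · refine regularOn_poly (fun p => ?_) _
    by_cases h : (p.2 : ℕ) = 0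
    · simpa only [if_pos h] using IsPF.coord (K := K) p.1
    · simpa only [if_neg h] using IsPF.zero (K := K)
  · rintro y ⟨⟨hy1, hy2, hy3, hy4⟩, hy5⟩
    refine ⟨?_, hy4, ?_⟩
    · intro i
      by_cases h : i ∈ Fr
      · show y (i, 0) ≠ 0
        rw [hy4 i h]
        exact one_ne_zero
      · exact hy2 i h
    · intro i hi
      exact hy5 i (Finset.mem_filter.1 hi).2
  · rintro z ⟨hz1, hz2, hz3⟩
    refine ⟨⟨?_, ?_, ?_, ?_⟩, ?_⟩
    · intro p hp _
      exact if_neg hp.ne'
    · intro i _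
      show (if ((0 : Fin (2 * N + 1 + 1)) : ℕ) = 0 then z i else 0) ≠ 0
      rw [if_pos h0]
      exact hz1 i
    · intro i hi
      exact absurd rfl hi
    · intro i hi
      show (if ((0 : Fin (2 * N + 1 + 1)) : ℕ) = 0 then z i else 0) = _
      rw [if_pos h0]
      exact hz2 i hi
    · intro i hi
      show gbar w (msk π (cb c) i) τ (fun l => if ((0 : Fin (2 * N + 1 + 1)) : ℕ) = 0 then z l
        else 0) = 0
      simp only [if_pos h0]
      exact hz3 i (Finset.mem_filter.2 ⟨Finset.mem_univ _, hi⟩)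
  · rintro y ⟨⟨hy1, hy2, hy3, hy4⟩, hy5⟩
    funext p
    show (if (p.2 : ℕ) = 0 then y (p.1, 0) else 0) = y p
    by_cases h : (p.2 : ℕ) = 0
    · rw [if_pos h]
      congr 1
      refine Prod.ext rfl ?_
      exact Fin.ext h.symm
    · rw [if_neg h]
      exact (hy1 p (Nat.pos_of_ne_zero h) (Finset.notMem_empty p)).symm
  · intro z _
    funext i
    show (if ((0 : Fin (2 * N + 1 + 1)) : ℕ) = 0 then z i else 0) = z i
    exact if_pos rfl

end Pool.Agent.W500.IM.StI
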